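import Pool.Agent.H337R2.Med

/-!
# Irrationality exponent of `ζ(3)`: definitions

`R(t) = ((20n)!)^4 (2t+20n) ∏_{b=10n+1}^{20n} (s²-b²) / ∏_{k=0}^{20n} (t+k)^4`, `s = t + 10n`, `x = s²`,
`G_u(Q) = ∑_{t≥1} R(t) x^26 Q(x)` (with `ζ(3)` replaced by `u`) `= AF(Q) u - BF(Q)`.
-/

open Polynomial Pool.Agent.H337R2

namespace Pool.Agent.W791.Z3

noncomputable section

/-- the poles `t = -k` -/
abbrev sN (n : ℕ) : Finset ℕ := Finset.range (20 * n + 1)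

/-- their multiplicity -/
abbrev mu4 : ℕ → ℕ := fun _ => 4

/-- the normalising constant -/
def cN (n : ℕ) : ℚ := (((20 * n).factorial : ℕ) : ℚ) ^ 4

/-- constant and linear part of the numerator -/
def PPn (n : ℕ) : ℚ[X] := C (cN n) * (2 * X + C ((20 * n : ℕ) : ℚ))

/-- `x(t) = (t + 10 n)²` -/
def xp (n : ℕ) : ℚ[X] := (X + C ((10 * n : ℕ) : ℚ)) ^ 2

/-- the zeros, in the variable `x` -/
def EZ (n : ℕ) : ℚ[X] := ∏ b ∈ Finset.Icc (10 * n + 1) (20 * n), (X - C ((b : ℚ) ^ 2))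

/-- `x^26 EZ(x) Q(x)` as a polynomial in `t` -/
def EE (n : ℕ) (Q : ℚ[X]) : ℚ[X] := (X ^ 26 * EZ n * Q).comp (xp n)

/-- coefficient of `1/(t+k)^i` in `R(t) x^26 Q(x)` -/
def ca (n : ℕ) (Q : ℚ[X]) (k i : ℕ) : ℚ := pa (sN n) mu4 (PPn n * EE n Q) k i

/-- coefficient of `ζ(3)` -/
def AF (n : ℕ) (Q : ℚ[X]) : ℚ := ∑ k ∈ sN n, ca n Q k 3

/-- rational part -/
def BF (n : ℕ) (Q : ℚ[X]) : ℚ := ∑ i ∈ Finset.Icc 1 4, ∑ k ∈ sN n, ca n Q k i * hs i k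

lemma pa_add (s : Finset ℕ) (μ : ℕ → ℕ) (P Q : ℚ[X]) (k i : ℕ) :
    pa s μ (P + Q) k i = pa s μ P k i + pa s μ Q k i := by
  unfold pa
  split_ifs
  · unfold pfc; rw [map_add, add_mul, map_add]
  · simp

lemma pa_C_mul (s : Finset ℕ) (μ : ℕ → ℕ) (c : ℚ) (P : ℚ[X]) (k i : ℕ) :
    pa s μ (C c * P) k i = c * pa s μ P k i := by
  unfold pa
  split_ifs
  · unfold pfc; rw [(TS (-(k : ℚ))).map_mul, TS_C, mul_assoc, PowerSeries.coeff_C_mul]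
  · simp

lemma ca_add (n : ℕ) (P Q : ℚ[X]) (k i : ℕ) : ca n (P + Q) k i = ca n P k i + ca n Q k i := by
  unfold ca EE
  rw [← pa_add]
  congr 1
  rw [mul_add, Polynomial.add_comp, mul_add]

lemma ca_C_mul (n : ℕ) (c : ℚ) (Q : ℚ[X]) (k i : ℕ) : ca n (C c * Q) k i = c * ca n Q k i := by
  unfold ca EE
  rw [← pa_C_mul]
  congr 1
  rw [show X ^ 26 * EZ n * (C c * Q) = C c * (X ^ 26 * EZ n * Q) by ring, Polynomial.mul_comp, Polynomial.C_comp]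
  ring

/-- the functional `G_u` -/
def NL (n : ℕ) (u : ℚ) : ℚ[X] →ₗ[ℚ] ℚ where
  toFun Q := AF n Q * u - BF n Q
  map_add' P Q := by
    unfold AF BF
    simp only [ca_add, add_mul, Finset.sum_add_distrib]
    ring
  map_smul' c P := by
    rw [Polynomial.smul_eq_C_mul]
    unfold AF BF
    simp only [ca_C_mul, RingHom.id_apply, smul_eq_mul, mul_assoc, ← Finset.mul_sum]
    ring

lemma NL_apply (n : ℕ) (u : ℚ) (Q : ℚ[X]) : NL n u Q = AF n Q * u - BF n Q := rfl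

/-- Hankel determinant of size `m` -/
def DET (n : ℕ) (u : ℚ) (m : ℕ) : ℚ :=
  (Matrix.of fun i j : Fin m => NL n u (X ^ (i.1 + j.1))).det

/-- `q` is a denominator of `u` -/
def UInt (q : ℕ) (u : ℚ) : Prop := 0 < q ∧ ∃ z : ℤ, (q : ℚ) * u = z

/-! ### real side: summation points `s = 20 n + 1 + j` (the terms with `10 n < s ≤ 20 n` vanish) -/

/-- the weight `R(t) x^26` at the point `s` -/
def Ws (n : ℕ) (s : ℝ) : ℝ :=
  ((cN n : ℚ) : ℝ) * (2 * s) * s ^ 52 * (∏ b ∈ Finset.Icc (10 * n + 1) (20 * n), (s ^ 2 - (b : ℝ) ^ 2)) /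
    (∏ k ∈ Finset.range (20 * n + 1), (s - 10 * n + k)) ^ 4

/-- the `j`-th summation point -/
def sp (n j : ℕ) : ℝ := 20 * n + 1 + j

/-! ### complex side: the contour `|s| = 10 n + 1/2` -/

/-- `R(t) x^26 sin²(π s) / π²` at the complex point `s` -/
def Wc (n : ℕ) (s : ℂ) : ℂ :=
  ((cN n : ℚ) : ℂ) * (2 * s) * s ^ 52 * (∏ b ∈ Finset.Icc (10 * n + 1) (20 * n), (s ^ 2 - (b : ℂ) ^ 2)) /
    (∏ k ∈ Finset.range (20 * n + 1), (s - 10 * n + k)) ^ 4 * (Complex.sin (Real.pi * s) / Real.pi) ^ 2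

end

end Pool.Agent.W791.Z3
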