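import Pool.Agent.W791.Z3.Defs

/-!
# Irrationality exponent of `ζ(3)`: the statements of the blocks
-/

open Polynomial Pool.Agent.H337R2 Filter Topology

namespace Pool.Agent.W791.Z3

noncomputable section

/-- D: the linear form -/
def StD : Prop := ∀ n : ℕ, 1 ≤ n → ∀ Q : ℚ[X], Q.natDegree ≤ 24 * n - 26 →
  HasSum (fun j : ℕ => Ws n (sp n j) * aeval ((sp n j) ^ 2) Q)
    (((AF n Q : ℚ) : ℝ) * zr 3 - ((BF n Q : ℚ) : ℝ))

/-- A: archimedean bound near `ζ(3)` (used with `k = 12`, `a = 332` and `k = 11`, `a = 238`) -/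
def StA (k : ℕ) (a : ℝ) : Prop := ∀ᶠ n : ℕ in atTop, ∀ x : ℚ,
  |zr 3 - (x : ℝ)| ≤ Real.exp (-(136.6 * (n : ℝ))) → DET n x (k * (n - 1)) ≠ 0 →
  Real.log |((DET n x (k * (n - 1)) : ℚ) : ℝ)| ≤
    2 * k * (10 + k) * (n : ℝ) ^ 2 * Real.log n + a * (n : ℝ) ^ 2

/-- P: p-adic bound for the primes up to `20 n` (used with `k = 12`, `β = 632` and `k = 11`, `β = 514`) -/
def StP (k : ℕ) (β : ℝ) : Prop := ∀ᶠ n : ℕ in atTop, ∀ (q : ℕ) (u : ℚ), UInt q u →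
  DET n u (k * (n - 1)) ≠ 0 →
  ∑ p ∈ (Finset.range (20 * n + 1)).filter Nat.Prime,
    Real.log ((padicNorm p ((q : ℚ) ^ (k * (n - 1)) * DET n u (k * (n - 1))) : ℚ) : ℝ) ≤
  -(2 * k * (10 + k) * (n : ℝ) ^ 2 * Real.log n) - β * (n : ℝ) ^ 2

/-- L: the large primes -/
def StL (k : ℕ) : Prop := ∀ᶠ n : ℕ in atTop, ∀ (q : ℕ) (u : ℚ), UInt q u → ∀ p : ℕ, p.Prime → 20 * n < p →
  padicNorm p ((q : ℚ) ^ (k * (n - 1)) * DET n u (k * (n - 1))) ≤ 1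

/-- H: non-vanishing at every rational number, for one of the two sizes -/
def StH : Prop := ∃ p0 : ℕ, ∀ p : ℕ, p0 ≤ p → p.Prime → ∀ u : ℚ,
  DET p u (12 * (p - 1)) ≠ 0 ∨ DET p u (11 * (p - 1)) ≠ 0

/-- the final result -/
def StM : Prop := ∃ c : ℝ, 0 < c ∧ ∀ (a : ℤ) (b : ℕ), 0 < b →
  c / (b : ℝ) ^ (11 / 2 : ℝ) ≤ |zr 3 - (a : ℝ) / b|

/-- M: the deduction -/
def StMain : Prop := StA 12 332 → StA 11 238 → StP 12 632 → StP 11 514 → StL 12 → StL 11 → StH → StM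

end

end Pool.Agent.W791.Z3
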